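import Pool.Agent.V8H94.SC.Bir

/-!
# Adelic sections of the fundamental groups of curves with sufficiently many punctures

Let `K` be a number field of degree `n`, `C` a geometrically connected hyperbolic curve over `K` with
function field `F`, and let `f` be a nonconstant regular function on `C` and `g_1, …, g_m` pairwise coprime
nonconstant polynomials over `K` such that all `g_j(f)` are invertible on `C`, so that `f` is a map from
`C` to the projective line without the zeros of the `g_j` and without `∞`.  Let `s` be a section of
`π₁(C) → Gal(B/K)` which is given by an adelic point of `C`: at every finite place `v` by a point `x_v`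
over the completion `K_v`, where for all but finitely many `v` the numbers `g_j(f(x_v))` are `v`-adic
units.  We prove:

*If `m ≥ n`, or if `K` contains a CM field and `2 m ≥ n`, then there is exactly one `y ∈ K` with
`f(x_v) = y` for all `v`.  Moreover the section `s` and the rational point `y` have the same image in the
abelianised fundamental group of the projective line without the zeros of the `g_j` and without `∞`.*

For example, an adelic section of the projective line without `0`, `1`, `∞` over a quadratic field, or
over a field of degree four which contains a CM field, agrees at every finite place with the section of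
one rational point, and the same is so for the projective line without `n + 1` rational points over
each number field of degree `n`.  Nothing is assumed on the section besides that it is adelic; it
need not lift to smaller open curves.

The statement about the abelianised fundamental group is that for every zero `θ` of one of the
`g_j` and every `N` the function `(f - θ) / (y - θ)` is the `N`-th power of an element which is fixed by
`s σ` for all `σ` in the absolute Galois group of `K(θ)`.

The group `π₁(C)` is `Gal(M/F)`, where `M` is the maximal extension of `F` in `Ω` which is unramified over
`C`.  The theorem is stated for all `F` containing `K`, so `C` may also be a variety of higher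
dimension, and for all `M` which contain that extension, so that the birational case is included.

Proof.  The Kummer classes of the functions `g_j(f)`, restricted along the section, are classes of `K^×`
modulo `N`-th powers for all `N`, and by the finiteness of the class number they are, after a fixed
power, products of a fixed element of `K^×` with units.  For a set `Φ` of embeddings of `K` in a Galois
number field `L` for which the products `∏_Φ τ(u)` of conjugates of units take only finitely many
values (all embeddings, or those of a CM type) the twisted norms `∏_Φ τ(g_j(f(x_v)))^h`, computed in the
completions of `L`, are thus elements `R_j` of `L^×` which do not depend on the place.  The system of the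
`m ≥ |Φ|` equations `∏_Φ τ(g_j)(X_τ)^h = R_j` for the `|Φ|` unknowns `X_τ` has finitely many solutions:
on a curve of solutions some `X_τ` has a pole, and then each `g_j` needs another unknown at which it
vanishes.  Hence the `f(x_v)` are in one finite set of algebraic numbers.  Chebotarev's density
theorem, a lemma of B. H. Neumann on coverings of groups by subgroups and descent from cyclotomic
extensions show that an adelic element which is algebraic in this sense and whose Kummer classes are
global is an element of `K`; this is applied to `f - θ` over a Galois extension of `K` containing `θ`.
-/

set_option autoImplicit false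

open IsDedekindDomain NumberField Pool.Agent.TH954 Pool.Agent.W620.SC Polynomial

namespace Pool.Agent.Results.MP_2f3286_ag.AdelicSections

/-- `m` is at least the degree of `K`, or `K` contains a CM field, that is, a nonzero element all of whose
complex conjugates are purely imaginary, and `2 m` is at least the degree of `K`. -/
def Enough (K : Type) [Field K] [NumberField K] (m : ℕ) : Prop :=
  Module.finrank ℚ K ≤ m ∨
    ((∃ δ : K, δ ≠ 0 ∧ ∀ φ : K →+* ℂ, (φ δ).re = 0) ∧ Module.finrank ℚ K ≤ 2 * m)

/-- **Adelic sections and rational points.** -/
theorem result (K : Type) [Field K] [NumberField K] (F Ω M B : Type) [Field F] [Field Ω] [Field M]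
    [Field B] [Algebra K F] [Algebra F Ω] [Algebra K Ω] [Algebra F M] [Algebra K M] [Algebra K B]
    [IsScalarTower K F Ω] [IsScalarTower K F M] [IsAlgClosure F Ω] [IsAlgClosure K B]
    -- the local rings of the curve `C`, and the field `M`
    (U : Set (ValuationSubring F)) (hU : ∀ O ∈ U, ∀ c : K, algebraMap K F c ∈ O)
    (e : M →ₐ[F] Ω) (he : unramified F Ω U ≤ e.fieldRange)
    -- the map from `C` to the open part of the projective line
    (f : F) (m : ℕ) (hm : Enough K m) (g : Fin m → K[X])
    (hcop : ∀ i j, i ≠ j → IsCoprime (g i) (g j)) (hdeg : ∀ j, 0 < (g j).natDegree)
    (hf : ∀ O ∈ U, f ∈ O ∧ ∀ j, (aeval f (g j))⁻¹ ∈ O)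
    -- a section which is given by a local point at every finite place
    (s : GalSection K F M B)
    (p : ∀ v : HeightOneSpectrum (𝓞 K), Plc K M (AlgebraicClosure (v.adicCompletion K)))
    (hp : ∀ v, s.GivenBy (v.adicCompletion K) (p v))
    -- the values of `f` at the local points
    (x : ∀ v : HeightOneSpectrum (𝓞 K), v.adicCompletion K)
    (hx : ∀ v, (p v).val (algebraMap F M f)
      (algebraMap (v.adicCompletion K) (AlgebraicClosure (v.adicCompletion K)) (x v)))
    -- the local points are in the open curve, and integral at almost all places
    (hnz : ∀ v j, aeval (x v) (g j) ≠ 0)
    (hint : ∀ j, {v | Valued.v (aeval (x v) (g j)) ≠ 1}.Finite) :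
    ∃! y : K, (∀ v, x v = algebraMap K (v.adicCompletion K) y) ∧
      ∀ (j : Fin m) (θ : B), aeval θ (g j) = 0 → ∀ N : ℕ, 1 ≤ N →
        ∃ G : M, (∀ σ : B ≃ₐ[K] B, σ θ = θ → s.s σ G = G) ∧
          algebraMap F M f - s.j θ = s.j (algebraMap K B y - θ) * G ^ N := by
  refine Pool.Agent.V8H94.SC.et_main U hU e he ?_ g hcop hdeg hf s p hp x hx hnz hint
  rcases hm with h | ⟨⟨δ, h1, h2⟩, h3⟩
  · exact Pool.Agent.V8H94.SC.small_of_finrank h
  · exact Pool.Agent.V8H94.SC.small_of_cm h1 h2 h3

end Pool.Agent.Results.MP_2f3286_ag.AdelicSections
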