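import Pool.Agent.V8H94.SC.Bir

/-!
# Birationally adelic sections over arbitrary number fields

Let `K` be a number field of degree `n`, `X` a smooth projective geometrically connected curve over `K`
with function field `F`, and `s` a section of `Gal(Ω/F) → Gal(B/K)`, where `Ω` and `B` are algebraic
closures.  Suppose that at every finite place `v` of `K` the section is given by a local point `x_v`, and
that the family `(x_v)` is integral at almost all `v` with respect to one affine open curve: there are a
nonconstant function `f` and `m` pairwise coprime nonconstant polynomials `g_j` over `K` such that `f` is
regular at all `x_v`, the numbers `g_j(f(x_v))` are not zero, and they are `v`-adic units for all but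
finitely many `v`.  We prove:

*If `m ≥ n`, or if `K` contains a CM field and `2 m ≥ n`, then `s` is the section of exactly one rational
point of `X`, and all `x_v` are equal to this point.*

So the adelic sections of the absolute Galois group of `F`, those whose local points are an adelic point
of every (or only of one sufficiently small) affine open subset of `X`, come from rational points.
For totally real and for imaginary quadratic fields `K` this is a theorem of Stix (On the birational
section conjecture with local conditions); here `K` is an arbitrary number field.

The condition on `m` is used as follows.  The Kummer classes of the functions `g_j(f)`, restricted along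
the section, are classes of `K^×` modulo `N`-th powers for all `N`, and by the finiteness of the class
number they are, after a fixed power, the products of a fixed element of `K^×` with units of `K`.  The
local values `g_j(f(x_v))` have these classes at all `v`.  For a set `Φ` of embeddings of `K` in a Galois
number field `L` for which the products `∏_Φ τ(u)` of the conjugates of units take only finitely many
values (all embeddings, or those of a CM type) the twisted norms `∏_Φ τ(g_j(f(x_v)))^h`, computed in the
completions of `L`, are thus elements `R_j` of `L^×` which do not depend on the place.  The point is that
the system of the `m ≥ |Φ|` equations `∏_Φ τ(g_j)(X_τ)^h = R_j` for `|Φ|` unknowns has finitely many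
solutions: on a curve of solutions some `X_τ` has a pole, and then each of the polynomials `g_j` needs
another unknown at which it vanishes.  Hence the `f(x_v)` are in one finite set of algebraic numbers.
Chebotarev's density theorem, a lemma of B. H. Neumann on coverings of groups by subgroups and descent
from cyclotomic extensions then show that an adelic element which is algebraic in this sense and whose
Kummer classes are global is an element of `K`.  Therefore all `f(x_v)` are equal to one `y ∈ K`, and
applying this to all functions one finds that all `x_v` are the same rational point; the decomposition
group of this point which contains the image of `s` is found as a limit.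
-/

set_option autoImplicit false

open IsDedekindDomain NumberField Pool.Agent.TH954 Polynomial

namespace Pool.Agent.Results.MP_2f3286_ag.BirationallyAdelic

/-- `m` is at least the degree of `K`, or `K` contains a CM field, that is, a nonzero element all of whose
complex conjugates are purely imaginary, and `2 m` is at least the degree of `K`. -/
def Enough (K : Type) [Field K] [NumberField K] (m : ℕ) : Prop :=
  Module.finrank ℚ K ≤ m ∨
    ((∃ δ : K, δ ≠ 0 ∧ ∀ φ : K →+* ℂ, (φ δ).re = 0) ∧ Module.finrank ℚ K ≤ 2 * m)

/-- **Birationally adelic sections come from rational points.** -/
theorem result (K : Type) [Field K] [NumberField K] (F Ω B : Type) [Field F] [Field Ω] [Field B]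
    [Algebra K F] [Algebra F Ω] [Algebra K Ω] [Algebra K B] [IsScalarTower K F Ω]
    [IsAlgClosure F Ω] [IsAlgClosure K B]
    -- `F` is the function field of a curve
    (hF : ∃ t : F, Transcendental K t ∧ Algebra.IsAlgebraic (IntermediateField.adjoin K {t}) F)
    -- a section which is given by a local point at every finite place
    (s : GalSection K F Ω B)
    (p : ∀ v : HeightOneSpectrum (𝓞 K), Plc K Ω (AlgebraicClosure (v.adicCompletion K)))
    (hp : ∀ v, s.GivenBy (v.adicCompletion K) (p v))
    -- the function and the polynomials
    (f : F) (hf : ∀ c : K, f ≠ algebraMap K F c) (m : ℕ) (hm : Enough K m) (g : Fin m → K[X])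
    (hcop : ∀ i j, i ≠ j → IsCoprime (g i) (g j)) (hdeg : ∀ j, 0 < (g j).natDegree)
    -- the value of the function at the local points
    (x : ∀ v : HeightOneSpectrum (𝓞 K), v.adicCompletion K)
    (hx : ∀ v, (p v).val (algebraMap F Ω f)
      (algebraMap (v.adicCompletion K) (AlgebraicClosure (v.adicCompletion K)) (x v)))
    -- the local points are in the open curve, and integral at almost all places
    (hnz : ∀ v j, aeval (x v) (g j) ≠ 0)
    (hint : ∀ j, {v | Valued.v (aeval (x v) (g j)) ≠ 1}.Finite) :
    ∃ O : ValuationSubring F, s.ArisesFrom O ∧ (∀ O', s.ArisesFrom O' → O' = O) ∧
      ∀ v, (p v).W.comap (algebraMap F Ω) = O := by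
  refine Pool.Agent.V8H94.SC.bir_main hF s p hp hf ?_ g hcop hdeg x hx hnz hint
  rcases hm with h | ⟨⟨δ, h1, h2⟩, h3⟩
  · exact Pool.Agent.V8H94.SC.small_of_finrank h
  · exact Pool.Agent.V8H94.SC.small_of_cm h1 h2 h3

end Pool.Agent.Results.MP_2f3286_ag.BirationallyAdelic
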