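import Pool.Agent.V8H94.SC.Ell7

/-!
# Adelic sections of elliptic curves without finitely many points

Let `E` be an elliptic curve over a number field `K`, given in short Weierstrass form, `l ≥ 2` an
integer and `T` a subgroup of `E(K)` such that all classes in the `l`-Selmer group of `E` over `K`
(without conditions at the archimedean places) come from `T`.  For `T = 0` this says that the
`l`-Selmer group is trivial; in general it says that `T` and `E(K)` have the same image in the
Selmer group and that the Tate-Shafarevich group (again without conditions at the archimedean
places) has no nonzero elements killed by `l`.  Let `C` be a curve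
over `K` with function field `F` and a nonconstant map `(x, y)` to `E` without the points of `T`, for
example `E` without `T` itself (if `T` is finite), and let `s` be a section of `π₁(C) → Gal(B/K)`
which is given by an adelic point of `C`: at every finite place `v` by a local point, at which `x` has
the value `X_v`, such that the image of the local point in `E` is not in `T` and at almost all places
does not meet `T` modulo `v`.  We prove:

*There is exactly one point `R` in `E(K)` such that for all `v` the image of the local point in `E` is
`R`.  Moreover `(x, y) - R` is divisible by all powers of `l` in the group of the points of `E` over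
`M` which are fixed by `s`; so the section `s` and the rational point `R` have the same image in the
pro-`l` quotient of the fundamental group of `E`.*

So the adelic sections of a once punctured elliptic curve with trivial `l`-Selmer group for one
`l` agree, at all finite places, with rational points.  The finiteness of the Tate-Shafarevich group is not
assumed: nothing is known about its elements of order prime to `l`, and the argument uses
non-abelian covers.

The group `π₁(C)` is `Gal(M/F)`, where `M` is the maximal extension of `F` in `Ω` which is unramified over
`C`.  The theorem is stated for all `F` containing `K`, so `C` may also be a variety of higher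
dimension, and for all `M` which contain that extension, so that the birational case is included.

Proof.  By descent, the point `P = (x, y)` is `l^k Q + R_k` with `R_k` in `T` and a point `Q` over `M`
which is fixed by the section.  As `P` does not meet `T`, the point `Q` does not meet the torsion points
of order dividing `l^k`.  The `Q` are thus points of the curve `E` without `E[l^k]`, and the
polynomials over `K` whose zeros are the abscissae of the points of exact order `l^i`, `i = 1, …, k`,
give `k` units on this curve.  For `k` at least the degree of `K` the method of `AdelicSections` shows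
that the abscissae of all local values of `Q` are one element of `K`.  The tangent at a point of order
dividing `l^k` is a unit too, and Theorem Z for it shows that also the ordinates are one element of `K`.
-/

set_option autoImplicit false

open IsDedekindDomain NumberField WeierstrassCurve Pool.Agent.TH954 Pool.Agent.W620.SC

namespace Pool.Agent.Results.MP_2f3286_ag.EllipticSelmer

open scoped Classical in
/-- All classes in the `l`-Selmer group of `E`, without conditions at the archimedean places, are
images of elements of `T`: for every continuous cocycle `ξ` of the absolute Galois group of `K` with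
values in the points of order dividing `l`, which at every finite place `v` becomes a coboundary in
the points of `E` over the algebraic closure of `K_v`, there are `R` in `T` and a point `Q` over the
algebraic closure of `K` with `l Q = R` and `ξ σ = σ Q - Q` for all `σ`. -/
def SelmerFrom {K : Type} [Field K] [NumberField K] (E : WeierstrassCurve K) (l : ℕ)
    (T : AddSubgroup E.toAffine.Point) : Prop :=
  ∀ ξ : (AlgebraicClosure K ≃ₐ[K] AlgebraicClosure K) → AlgPt E K, IsCocycle E ξ →
    (∀ σ, l • ξ σ = 0) →
    (∀ v : HeightOneSpectrum (𝓞 K), TrivialOver E ξ (v.adicCompletion K)) →
    ∃ R ∈ T, ∃ Q : AlgPt E K, l • Q = incl E K R ∧ ∀ σ, ξ σ = act E σ Q - Q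

open scoped Classical in
/-- **Adelic sections of elliptic curves without finitely many points.** -/
theorem result (K : Type) [Field K] [NumberField K] (E : WeierstrassCurve K) [E.IsElliptic]
    (h₁ : E.a₁ = 0) (h₂ : E.a₂ = 0) (h₃ : E.a₃ = 0) (l : ℕ) (hl : 2 ≤ l)
    (T : AddSubgroup E.toAffine.Point) (hSel : SelmerFrom E l T)
    (F Ω M B : Type) [Field F] [Field Ω] [Field M]
    [Field B] [Algebra K F] [Algebra F Ω] [Algebra K Ω] [Algebra F M] [Algebra K M] [Algebra K B]
    [IsScalarTower K F Ω] [IsScalarTower K F M] [IsAlgClosure F Ω] [IsAlgClosure K B]
    -- the local rings of the curve `C`, and the field `M`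
    (U : Set (ValuationSubring F)) (hU : ∀ O ∈ U, ∀ c : K, algebraMap K F c ∈ O)
    (e : M →ₐ[F] Ω) (he : unramified F Ω U ≤ e.fieldRange)
    -- the map from `C` to `E` without the points of `T`
    (x y : F) (hP : (E.baseChange F).toAffine.Nonsingular x y)
    (hreg : ∀ O ∈ U, x ∈ O ∧ ∀ (a b : K) (h : E.toAffine.Nonsingular a b), .some a b h ∈ T →
      (x - algebraMap K F a)⁻¹ ∈ O)
    -- a section which is given by a local point at every finite place
    (s : GalSection K F M B)
    (p : ∀ v : HeightOneSpectrum (𝓞 K), Plc K M (AlgebraicClosure (v.adicCompletion K)))
    (hp : ∀ v, s.GivenBy (v.adicCompletion K) (p v))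
    -- the values of `x` at the local points
    (X : ∀ v : HeightOneSpectrum (𝓞 K), v.adicCompletion K)
    (hX : ∀ v, (p v).val (algebraMap F M x)
      (algebraMap (v.adicCompletion K) (AlgebraicClosure (v.adicCompletion K)) (X v)))
    -- the local points are in the open curve, and integral at almost all places
    (hint : {v | 1 < Valued.v (X v)}.Finite)
    (hT : ∀ (a b : K) (h : E.toAffine.Nonsingular a b), .some a b h ∈ T →
      (∀ v, X v ≠ algebraMap K (v.adicCompletion K) a) ∧
        {v | Valued.v (X v - algebraMap K (v.adicCompletion K) a) ≠ 1}.Finite) :
    ∃! R : E.toAffine.Point,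
      (∀ v, ∃ (a b : K) (h : E.toAffine.Nonsingular a b), R = .some a b h ∧
        X v = algebraMap K (v.adicCompletion K) a ∧
        (p v).val (algebraMap F M y)
          (algebraMap K (AlgebraicClosure (v.adicCompletion K)) b)) ∧
      ∀ N : ℕ, ∃ Q : (E.baseChange M).toAffine.Point,
        (∀ g : B ≃ₐ[K] B, pm E ((s.s g : M →ₐ[F] M).restrictScalars K) Q = Q) ∧
        l ^ N • Q = pm E (IsScalarTower.toAlgHom K F M) (.some x y hP) -
          locHom (L := M) E R := by
  obtain ⟨a, b, rfl⟩ := short_eq_sw h₁ h₂ h₃
  have hD := disc_of_elliptic (a := a) (b := b) inferInstance
  obtain ⟨v0⟩ := Pool.Agent.V8H94.SC.exists_place K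
  obtain ⟨x0, y0, h0, h1, h2⟩ := Pool.Agent.V8H94.SC.ell_main hD hl hSel U hU e he hP
    (fun O hO => ⟨(hreg O hO).1, (hreg O hO).2⟩) s p hp X hX hint hT
  refine ⟨.some x0 y0 h0, ⟨fun v => ⟨x0, y0, h0, rfl, (h1 v).1, (h1 v).2⟩, h2⟩, ?_⟩
  rintro R ⟨hR, -⟩
  obtain ⟨x1, y1, h3, rfl, h4, h5⟩ := hR v0
  have e1 := h4.symm.trans (h1 v0).1
  have e2 := (h5.unique (h1 v0).2)
  rw [Affine.Point.some.injEq]
  exact ⟨(algebraMap K (v0.adicCompletion K)).injective e1,
    (algebraMap K (AlgebraicClosure (v0.adicCompletion K))).injective e2⟩

end Pool.Agent.Results.MP_2f3286_ag.EllipticSelmer
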