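import Pool.Agent.V8H70.UT.Dens
import Pool.Agent.V8H70.UT.Grp
import Pool.Agent.Y674.PS.Fun
import Pool.Agent.Y157.PS.Geo1

/-!
# The section conjecture for 100% of the twists, over all extension fields at once

Let `K` be a number field, `f ∈ K[x]` separable of degree `m ≥ 3`, and `a ∈ O_K`.  For the curve
`a yⁿ = f(x)` over `K` and a prime `ℓ` dividing `n` and `m` we consider all finite extensions `E/K`
at the same time.  For an element `σ` of `Gal(K̄/K)` let `D(σ)` be the numerical semigroup generated
by `ℓ` and by the lengths of the orbits of `σ` on the roots of `f`.  We call `E/K` admissible if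

* the degree of `E` over `K` is not in `D(σ)` for some `σ`, or
* `E/K` is Galois and, for some `σ`, its degree is not divisible by `ℓ` and not by the length of
  an orbit of `σ`.

Theorem.  For all `a ∈ O_K` outside a set of density zero, for ALL admissible extensions `E/K`, the
curve `a yⁿ = f(x)` has no point over `E`, and the fundamental groups of its open subcurves (and of
all smooth curves over `E` that dominate it) have no section over `E`; if `n = ℓ`, also the
geometrically pro-`ℓ` fundamental group has no section over `E`.  The set of the exceptional `a` has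
density zero in a strong sense: for every `ε > 0` there is an ideal `I ≠ 0` such that the exceptional
`a` lie in at most `ε #(O_K/I)` residue classes modulo `I`.

The exceptional set does not depend on `E`, although there are infinitely many admissible `E`.

Examples.  (1) If `f` is irreducible of prime power degree `ℓ ^ r`, all `E` whose degree over `K` is
prime to `ℓ` are admissible (second part of the theorem).  This is sharp: the curve has points of
degree `ℓ ^ r` and of degree `n`.  (2) Let `ℓ = 5` and `f` a product of irreducible polynomials of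
degrees 7 and 8 with independent Galois groups that contain a 7-cycle and an 8-cycle.  Then all
extensions of degree 1, 2, 3, 4, 6, 9 and 11 are admissible, because these numbers are not in
the semigroup generated by 5, 7 and 8.  Here the index of the curve is 1, and over every
extension `E` its abelianised fundamental group has a section, by the points of degree 7 and 8.

The condition on the degree is sharp at the primes that we use: if `v` has Frobenius `σ` and `a` has
valuation 1 at `v`, then for all `d ∈ D(σ)` there are extensions `E/K` of degree `d` such that the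
curve `a y^ℓ = f(x)` has points over the completions of `E` at all places above `v` (their degrees
are `ℓ`, totally ramified, and the lengths of orbits, unramified).

The fundamental group is described through valuations.  Let `U` be a smooth geometrically connected
curve over `k` with function field `F`, let `Ω` be an algebraic closure of `F`, and let `F_U` be the
maximal extension of `F` inside `Ω` which is unramified over the closed points of `U`, that is, over
their local rings, which are valuation rings of `F`.  Then `π₁(U) = Gal(F_U/F)`, and the map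
`π₁(U) → G_k` is the restriction of automorphisms to the algebraic closure of `k` in `Ω`.

Proof.  By Chebotarev there are many primes `v` of `K` with Frobenius `σ`, and almost every `a`
has valuation 1 at one of them.  Let `E/K` be an extension of degree `d` and `w₁, …, w_s` the
places above `v`, with ramification indices `e_i` and residue degrees `f_i`.  Then `d = ∑ e_i f_i`.
If `d ∉ D(σ)`, there is an `i` such that `ℓ` does not divide `e_i`, and `f_i` is not a multiple
of the length of an orbit; so `f` has no root in the residue field of `w_i`, and the valuation of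
`a` at `w_i` is prime to `ℓ`.  Now the local theorem for the completion at `w_i` applies (it was
proved for `MP_2f3286_ag.SuperellipticTwists`).
-/

open Polynomial NumberField

namespace Pool.Agent.Results.MP_2f3286_ag.TwistsOverExtensions

section definitions

variable (ℓ : ℕ) (k F Ω : Type) [Field k] [Field F] [Field Ω] [Algebra k F] [Algebra F Ω]
  [Algebra k Ω]

/-- The inertia group of the valuation ring `W` of `Ω`, as a subgroup of `Gal(Ω/F)`: the
automorphisms of `Ω` over `F` that map `W` onto itself and act as the identity on its residue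
field. -/
noncomputable def inertia (W : ValuationSubring Ω) : Subgroup (Ω ≃ₐ[F] Ω) :=
  (W.inertiaSubgroup F).map (W.decompositionSubgroup F).subtype

/-- `F_U`, for a set `U` of valuation rings of `F`: the elements of `Ω` fixed by the inertia groups
of all valuation rings `W` of `Ω` with `W ∩ F ∈ U`.  If `Ω` is an algebraic closure of a field `F`
of characteristic zero, this is the maximal extension of `F` in `Ω` unramified over `U`. -/
noncomputable def unramified (U : Set (ValuationSubring F)) : IntermediateField F Ω :=
  ⨅ W : {W : ValuationSubring Ω // W.comap (algebraMap F Ω) ∈ U},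
    IntermediateField.fixedField (inertia F Ω W.1)

/-- `k̄ F`, the compositum of `F` and of the algebraic closure of `k` in `Ω`. -/
noncomputable def geomField : IntermediateField F Ω :=
  IntermediateField.adjoin F (algebraicClosure k Ω : Set Ω)

/-- The algebraic extension `L` of `K` in `Ω` is unramified at all valuation rings of `Ω` that
contain `k`: every nonzero element of `L` has the same valuation as an element of `K`.  (If `K` is
a function field of one variable over the algebraic closure of `k` and `k` has characteristic zero,
then this says that `L/K` is unramified over all points of the smooth projective curve.) -/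
def Unramified {k K Ω : Type} [Field k] [Field K] [Field Ω] [Algebra k Ω] [Algebra K Ω]
    (L : IntermediateField K Ω) : Prop :=
  ∀ W : ValuationSubring Ω, (∀ c : k, algebraMap k Ω c ∈ W) → ∀ z ∈ L, z ≠ 0 →
    ∃ t : K, t ≠ 0 ∧ z / algebraMap K Ω t ∈ W ∧ (z / algebraMap K Ω t)⁻¹ ∈ W

/-- `L/K` is a finite Galois extension whose degree is a power of `ℓ`. -/
def FiniteProEll (ℓ : ℕ) {K Ω : Type} [Field K] [Field Ω] [Algebra K Ω]
    (L : IntermediateField K Ω) : Prop :=
  FiniteDimensional K L ∧ IsGalois K L ∧ ∃ m : ℕ, Module.finrank K L = ℓ ^ m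

/-- The maximal unramified pro-`ℓ` extension of `K` in `Ω`: the compositum of the finite Galois
extensions of `K` whose degree is a power of `ℓ` and which are unramified. -/
noncomputable def maxProEll (ℓ : ℕ) (k K Ω : Type) [Field k] [Field K] [Field Ω] [Algebra k Ω]
    [Algebra K Ω] : IntermediateField K Ω :=
  ⨆ L : {L : IntermediateField K Ω // FiniteProEll ℓ L ∧ Unramified (k := k) L}, L.1

/-- `M`, the maximal unramified pro-`ℓ` extension of `k̄ F` in `Ω`, as an extension of `F`. -/
noncomputable def proEllField : IntermediateField F Ω :=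
  (maxProEll ℓ k (geomField k F Ω) Ω).restrictScalars F

/-- The map `τ : M → M` acts as `σ : K → K` on the elements that the fields `K` and `M` have in
common when they are regarded as subfields of `Ω` through `i` and `j`. -/
def ActsAs {K M Ω : Type} [Field K] [Field M] [Field Ω] (i : K →+* Ω) (j : M →+* Ω) (σ : K → K)
    (τ : M → M) : Prop :=
  ∀ c z, j z = i c → j (τ z) = i (σ c)

/-- Let `k ⊆ K ⊆ Ω` and `F ⊆ N ⊆ Ω` be fields.  A splitting of `Gal(N/F) → Gal(K/k)`: a continuous
homomorphism `s` from `Gal(K/k)` to `Gal(N/F)` such that `s(σ)` acts as `σ` on the elements of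
`K ∩ N`. -/
structure Splitting (K N : Type) [Field K] [Field N] [Algebra k K] [Algebra F N] [Algebra K Ω]
    [Algebra N Ω] where
  /-- the homomorphism `Gal(K/k) → Gal(N/F)` -/
  toHom : (K ≃ₐ[k] K) →* (N ≃ₐ[F] N)
  cont : Continuous toHom
  compat : ∀ σ : K ≃ₐ[k] K, ActsAs (algebraMap K Ω) (algebraMap N Ω) σ (toHom σ)

/-- There are no sections of `Gal(N/F) → G_k`, where `G_k = Gal(k̄/k)` and `k̄` is the algebraic
closure of `k` in `Ω`.  For `N = F_U` these are the sections of `π₁(U) → G_k`. -/
def NoSplitting (N : IntermediateField F Ω) : Prop :=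
  IsEmpty (Splitting k F Ω (algebraicClosure k Ω) N)

end definitions

section curves

variable {k : Type} [Field k]

/-- The smooth projective curve with the affine equation `a yⁿ = f(x)` has no point over `k`:
neither in the affine part nor at infinity. -/
def NoPoint (n : ℕ) (a : k) (f : k[X]) : Prop :=
  (¬ ∃ x y : k, a * y ^ n = f.eval x) ∧
    ¬ ∃ r : k, a * r ^ Nat.gcd n f.natDegree = f.leadingCoeff

/-- Let `F` be any field over `k` that contains a point `(x, y)` of the curve `a yⁿ = f(x)`, for
instance the function field of the curve, and let `Ω` be an algebraic closure of `F`.  Then for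
every set `U` of valuation rings of `F` over `k` there is no section of `π₁(U) → G_k`.  If `F` is the
function field of the curve, such `U` are given by the smooth projective curve and by all its open
subcurves. -/
def NoSection (n : ℕ) (a : k) (f : k[X]) : Prop :=
  ∀ (F Ω : Type) [Field F] [Field Ω] [Algebra k F] [Algebra F Ω] [Algebra k Ω]
    [IsScalarTower k F Ω] [IsAlgClosure F Ω] (x y : F) (U : Set (ValuationSubring F)),
    algebraMap k F a * y ^ n = aeval x f → (∀ O ∈ U, ∀ c : k, algebraMap k F c ∈ O) →
      NoSplitting k F Ω (unramified F Ω U)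

/-- Let `F = k(x, y)` be the function field of the curve `a y^ℓ = f(x)`, let `Ω` be an algebraic
closure of `F`, and let `M` be the maximal unramified pro-`ℓ` extension of `k̄ F`.  For all
extensions `N ⊇ M` of `F` in `Ω`, in particular for `N = M`, there is no section of
`Gal(N/F) → G_k`. -/
def NoProEllSection (ℓ : ℕ) (a : k) (f : k[X]) : Prop :=
  ∀ (F Ω : Type) [Field F] [Field Ω] [Algebra k F] [Algebra F Ω] [Algebra k Ω]
    [IsScalarTower k F Ω] [IsAlgClosure F Ω] (x y : F), Transcendental k x →
    algebraMap k F a * y ^ ℓ = aeval x f →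
    IntermediateField.adjoin k {x, y} = (⊤ : IntermediateField k F) →
    ∀ N : IntermediateField F Ω, proEllField ℓ k F Ω ≤ N → NoSplitting k F Ω N

end curves

/-- The numerical semigroup `D(σ)` generated by `ℓ` and by all `c` such that `σ ^ c` fixes a root of
`f`; in other words, by `ℓ` and by the lengths of the orbits of `σ` on the set of the roots of
`f`. -/
def degrees {K : Type} [Field K] (ℓ : ℕ) (f : K[X])
    (σ : AlgebraicClosure K ≃ₐ[K] AlgebraicClosure K) : AddSubmonoid ℕ :=
  AddSubmonoid.closure
    (insert ℓ {c | ∃ θ : AlgebraicClosure K, aeval θ f = 0 ∧ (σ ^ c) θ = θ})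

/-- The admissible extensions `E` of `K`: for some `σ` in the Galois group of `K` the degree `d` of
`E` over `K` is not in `D(σ)`; or `E/K` is Galois, `ℓ` does not divide `d`, and `σ ^ d` fixes no
root of `f`, that is, no length of an orbit of `σ` on the roots divides `d`. -/
def Admissible (K E : Type) [Field K] [Field E] [Algebra K E] (ℓ : ℕ) (f : K[X]) : Prop :=
  ∃ σ : AlgebraicClosure K ≃ₐ[K] AlgebraicClosure K,
    Module.finrank K E ∉ degrees ℓ f σ ∨
      (IsGalois K E ∧ ¬ ℓ ∣ Module.finrank K E ∧
        ∀ θ : AlgebraicClosure K, aeval θ f = 0 → (σ ^ Module.finrank K E) θ ≠ θ)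

/-- The elements `a` of `O_K` which do not have the following property: for all prime numbers `ℓ`
dividing the degree of `f`, all finite extensions `E` of `K` that are admissible and all multiples
`n ≥ 1` of `ℓ` the curve `a yⁿ = f(x)` has neither points nor sections over `E`, and the
geometrically pro-`ℓ` fundamental group of the curve `a y^ℓ = f(x)` has no section over `E`. -/
def Exceptional {K : Type} [Field K] (f : K[X]) : Set (𝓞 K) :=
  {a | ¬ ∀ (E : Type) [Field E] [NumberField E] [Algebra K E] (ℓ : ℕ), ℓ.Prime →
    ℓ ∣ f.natDegree → Admissible K E ℓ f →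
      (∀ n : ℕ, 0 < n → ℓ ∣ n →
        NoPoint n (algebraMap K E (algebraMap (𝓞 K) K a)) (f.map (algebraMap K E)) ∧
        NoSection n (algebraMap K E (algebraMap (𝓞 K) K a)) (f.map (algebraMap K E))) ∧
      NoProEllSection ℓ (algebraMap K E (algebraMap (𝓞 K) K a)) (f.map (algebraMap K E))}

/-- Density zero: for every `ε > 0` there is an ideal `I ≠ 0` such that `S` lies in at most
`ε #(O_K/I)` residue classes modulo `I`. -/
def DensityZero {K : Type} [Field K] (S : Set (𝓞 K)) : Prop :=
  ∀ ε : ℝ, 0 < ε → ∃ I : Ideal (𝓞 K), I ≠ ⊥ ∧
    (Set.ncard ((Ideal.Quotient.mk I) '' S) : ℝ) ≤ ε * Nat.card (𝓞 K ⧸ I)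

lemma iSup_congr_prop {α : Type} [CompleteLattice α] {P Q : α → Prop} (h : ∀ L, P L ↔ Q L) :
    (⨆ L : {L // P L}, L.1) = ⨆ L : {L // Q L}, L.1 := by
  have h1 : P = Q := funext fun L => propext (h L)
  subst h1
  rfl

lemma proEll_eq (ℓ : ℕ) (k F Ω : Type) [Field k] [Field F] [Field Ω] [Algebra k F] [Algebra F Ω]
    [Algebra k Ω] : proEllField ℓ k F Ω = Pool.Agent.Y157.PS.geomPro ℓ k F Ω := by
  unfold proEllField Pool.Agent.Y157.PS.geomPro maxProEll Pool.Agent.Y157.PS.maxPro
  congr 1
  refine iSup_congr_prop fun L => ?_
  constructor
  · rintro ⟨⟨h1, h2, h3⟩, h4⟩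
    refine ⟨⟨h1, h2, h3⟩, fun W hW z hz hz0 => ?_⟩
    obtain ⟨t, ht, h5, h6⟩ := h4 W hW z hz hz0
    exact ⟨t, ht, div_ne_zero hz0 ((_root_.map_ne_zero _).2 ht), h5, h6⟩
  · rintro ⟨⟨h1, h2, h3⟩, h4⟩
    refine ⟨⟨h1, h2, h3⟩, fun W hW z hz hz0 => ?_⟩
    obtain ⟨t, ht, -, h5, h6⟩ := h4 W hW z hz hz0
    exact ⟨t, ht, h5, h6⟩

lemma of_fine {k : Type} [Field k] (l : ℕ) (a : k) (f : k[X])
    (h : Pool.Agent.Y157.PS.FineP l a f) (n : ℕ) (hn : l ∣ n) (hd : l ∣ f.natDegree) :
    NoPoint n a f ∧ NoSection n a f := by
  obtain ⟨-, h1, h2, h3⟩ := h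
  obtain ⟨n', rfl⟩ := hn
  refine ⟨⟨?_, ?_⟩, ?_⟩
  · rintro ⟨x, y, hxy⟩
    apply h2 x (y ^ n')
    rw [← hxy, ← pow_mul, mul_comm n' l]
  · rintro ⟨r, hr⟩
    obtain ⟨e, he⟩ := Nat.dvd_gcd (Dvd.intro n' rfl : l ∣ l * n') hd
    apply h3 (r ^ e)
    rw [← hr, ← pow_mul, mul_comm e l, he]
  · intro F Ω _ _ _ _ _ _ _ x y U hxy hU
    have hcl : IsAlgClosed Ω := IsAlgClosure.isAlgClosed F
    have halg : Algebra.IsAlgebraic F Ω := IsAlgClosure.isAlgebraic
    have h4 := h1 F Ω U hU x (y ^ n') (by rw [← hxy, ← pow_mul, mul_comm n' l])
    exact ⟨fun s => h4.false ⟨s.toHom, s.cont, s.compat⟩⟩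

/-- Let `K` be a number field and `f` a separable polynomial over `K` of degree at least 3.  Then
for all `a ∈ O_K` outside a set of density zero the following holds for all prime numbers `ℓ` that
divide the degree of `f`, all finite extensions `E` of `K` that are admissible for `f` and `ℓ`, and
all multiples `n ≥ 1` of `ℓ`: the smooth projective curve with the affine equation `a yⁿ = f(x)` has
no point over `E`, the fundamental groups of its open subcurves and of all smooth curves over `E`
that dominate it have no section over `E`, and the geometrically pro-`ℓ` fundamental group of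
the curve `a y^ℓ = f(x)` has no section over `E`.  If `f` is irreducible of degree `ℓ ^ r`, then all
finite extensions of `K` whose degree is not divisible by `ℓ` are admissible. -/
theorem result (K : Type) [Field K] [NumberField K] (f : K[X]) (hf : f.Separable)
    (h3 : 3 ≤ f.natDegree) :
    DensityZero (Exceptional f) ∧
    ∀ ℓ r : ℕ, ℓ.Prime → Irreducible f → f.natDegree = ℓ ^ r →
      ∀ (E : Type) [Field E] [NumberField E] [Algebra K E], ¬ ℓ ∣ Module.finrank K E →
        Admissible K E ℓ f := by
  constructor
  · have hFUN : Pool.Agent.Y157.PS.S_FUN :=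
      Pool.Agent.Y674.PS.funct Pool.Agent.Y157.PS.a_inrt
    refine (Pool.Agent.V8H70.UT.density_all hFUN f hf h3).mono ?_
    intro a ha
    by_contra hcon
    apply ha
    intro E _ _ _ ℓ hℓ hℓd hE
    obtain ⟨σ, hσ⟩ := hE
    have hcond : Pool.Agent.V8H70.UT.Cond K E ℓ (Pool.Agent.V8H70.UT.fixExp f σ) := by
      rcases hσ with h | ⟨h1, h2, h3⟩
      · exact Or.inl h
      · refine Or.inr ⟨h1, h2, ?_⟩
        rintro ⟨θ, hθ, hθ'⟩
        exact h3 θ hθ hθ'
    have hfine : Pool.Agent.Y157.PS.FineP ℓ (algebraMap K E (algebraMap (𝓞 K) K a))
        (f.map (algebraMap K E)) := by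
      by_contra hne
      apply hcon
      intro hall
      exact hne (hall σ E ℓ hℓ hℓd hcond)
    have hdeg : (f.map (algebraMap K E)).natDegree = f.natDegree := natDegree_map _
    refine ⟨fun n hn hℓn => of_fine ℓ _ _ hfine n hℓn (by rw [hdeg]; exact hℓd), ?_⟩
    intro F Ω _ _ _ _ _ _ _ x y hx hxy hF N hN
    have hcl : IsAlgClosed Ω := IsAlgClosure.isAlgClosed F
    have halg : Algebra.IsAlgebraic F Ω := IsAlgClosure.isAlgebraic
    rw [proEll_eq] at hN
    exact ⟨fun s => hfine.1 F Ω x y hx hxy hF N hN s.toHom s.cont s.compat⟩
  · intro ℓ r hℓ hirr hdeg E _ _ _ hE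
    have hr : 0 < r := by
      rcases Nat.eq_zero_or_pos r with h | h
      · rw [h, pow_zero] at hdeg
        omega
      · exact h
    obtain ⟨σ, hσ⟩ := Pool.Agent.V8H70.UT.exists_sigma f hirr ℓ r hℓ hr hdeg
    refine ⟨σ, Or.inl fun hmem => hE ?_⟩
    refine AddSubmonoid.closure_induction (motive := fun x _ => ℓ ∣ x) ?_ (dvd_zero _)
      (fun x y _ _ hx hy => dvd_add hx hy) hmem
    rintro c (rfl | ⟨θ, hθ, hc⟩)
    · exact dvd_refl _
    · exact hσ θ c hθ hc

end Pool.Agent.Results.MP_2f3286_ag.TwistsOverExtensions
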